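import Pool.Agent.Helper76.TC.Goals

set_option autoImplicit false

open Set Topology

namespace Pool.Agent.Helper44.TC.N1

open Pool.Agent.Helper76.TC
open Pool.Agent.Helper50.CT (rv Cov Sh StmtGH)

theorem turn_mono {A A' : ℝ} (h : A ≤ A') {X : Type} [MetricSpace X] (hT : Turn A X) :
    Turn A' X := by
  intro x y
  refine (hT x y).mono ?_
  intro z hz
  rw [Metric.mem_closedBall] at hz ⊢
  exact hz.trans (mul_le_mul_of_nonneg_right h dist_nonneg)

/-- integer translates of `b` between `a` and `a + c`, `|c| ≥ 1` -/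
theorem exists_int (a b : ℝ) (c : ℤ) (hc : c ≠ 0) : ∃ m : ℤ, b + m ∈ uIcc a (a + c) := by
  rcases lt_or_gt_of_ne hc with h | h
  · refine ⟨⌈a + c - b⌉, ?_⟩
    have h1 : (c : ℝ) ≤ -1 := by
      have : c ≤ -1 := by omega
      exact_mod_cast this
    rw [uIcc_of_ge (by linarith)]
    have e1 := Int.le_ceil (a + c - b)
    have e2 := Int.ceil_lt_add_one (a + c - b)
    constructor <;> linarith
  · refine ⟨⌈a - b⌉, ?_⟩
    have h1 : (1 : ℝ) ≤ c := by
      have : (1 : ℤ) ≤ c := by omega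
      exact_mod_cast this
    rw [uIcc_of_le (by linarith)]
    have e1 := Int.le_ceil (a - b)
    have e2 := Int.ceil_lt_add_one (a - b)
    constructor <;> linarith

theorem case_one (hCO : S_CO) (hSE : S_SE) (A C N R0 l : ℝ) (hl : 0 < l) :
    ∃ δ : ℝ, 0 < δ ∧ Abs 1 A C N R0 l δ := by
  obtain ⟨A', hA'⟩ : ∃ A', A' = max A 1 := ⟨_, rfl⟩
  have hA1 : 1 ≤ A' := by rw [hA']; exact le_max_right _ _
  have hAA : A ≤ A' := by rw [hA']; exact le_max_left _ _
  have hA0 : 0 < A' := by linarith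
  have hsq : 1 ≤ A' * A' := by nlinarith
  obtain ⟨δ, hδ⟩ : ∃ δ, δ = l / (4000 * (A' * A')) := ⟨_, rfl⟩
  have hδ0 : 0 < δ := by
    rw [hδ]
    positivity
  have hmul : δ * (4000 * (A' * A')) = l := by
    rw [hδ]
    field_simp
  have h12 : 12 * δ ≤ l := by
    rw [← hmul]
    nlinarith
  have h480 : A' * (24 * A' * (20 * δ)) < l / 4 := by
    have : A' * (24 * A' * (20 * δ)) = 480 / 4000 * (δ * (4000 * (A' * A'))) := by ring
    rw [this, hmul]
    linarith
  refine ⟨δ, hδ0, ?_⟩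
  intro X T _ _ _ _ _ _ _ _ π φ hφ hcov hturn _
  by_contra hlt
  rw [not_le] at hlt
  have hturn' : Turn A' X := turn_mono hAA hturn
  obtain ⟨p, q, D, hset, hD⟩ := hSE 1 A' l δ X T π hcov hA1 hturn' hl hlt
  obtain ⟨y, hy⟩ := hCO 1 A' (20 * δ) D X T π p q hset
  obtain ⟨k, hk, hk0⟩ : ∃ k ∈ Sh 1 y (24 * A' * (20 * δ)), k ≠ 0 := by
    by_contra hcon
    push Not at hcon
    have hsub : Sh 1 y (24 * A' * (20 * δ)) ⊆ ((⊥ : AddSubgroup (Fin 1 → ℤ)) : Set (Fin 1 → ℤ)) := by
      intro k hk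
      rw [SetLike.mem_coe, AddSubgroup.mem_bot]
      exact hcon k hk
    have h1 := (AddSubgroup.closure_le _).2 hsub (hy (fun _ => 1))
    rw [AddSubgroup.mem_bot] at h1
    have := congrFun h1 0
    simp at this
  have hkd : dist y (k +ᵥ y) ≤ 24 * A' * (20 * δ) := hk
  have hk00 : k 0 ≠ 0 := by
    intro h
    apply hk0
    funext i
    rw [Subsingleton.elim i 0, h]
    rfl
  obtain ⟨γ, hγ⟩ := hturn' y (k +ᵥ y)
  have hbd : ∀ w : X, dist (π y) (π w) < l / 4 := by
    intro w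
    have hcont : Continuous fun t : unitInterval => (φ.symm (γ t)) 0 :=
      (continuous_apply 0).comp (φ.symm.continuous.comp γ.continuous)
    have hsymm : ∀ (k : Fin 1 → ℤ) (x : X), φ.symm (k +ᵥ x) = rv k + φ.symm x := by
      intro k x
      rw [Homeomorph.symm_apply_eq, hφ, Homeomorph.apply_symm_apply]
    obtain ⟨m, hm⟩ := exists_int ((φ.symm y) 0) ((φ.symm w) 0) (k 0) hk00
    have h0 : (φ.symm (γ 0)) 0 = (φ.symm y) 0 := by rw [γ.source]
    have h1 : (φ.symm (γ 1)) 0 = (φ.symm y) 0 + (k 0 : ℤ) := by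
      rw [γ.target, hsymm]
      show (rv k) 0 + (φ.symm y) 0 = _
      rw [add_comm]
      rfl
    rw [← h1, ← h0] at hm
    obtain ⟨t, ht⟩ := mem_range_of_exists_le_of_exists_ge hcont
      (c := (φ.symm w) 0 + (m : ℝ))
      (by
        rcases le_total ((φ.symm (γ 0)) 0) ((φ.symm (γ 1)) 0) with h | h
        · rw [uIcc_of_le h] at hm
          exact ⟨0, hm.1⟩
        · rw [uIcc_of_ge h] at hm
          exact ⟨1, hm.1⟩)
      (by
        rcases le_total ((φ.symm (γ 0)) 0) ((φ.symm (γ 1)) 0) with h | h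
        · rw [uIcc_of_le h] at hm
          exact ⟨1, hm.2⟩
        · rw [uIcc_of_ge h] at hm
          exact ⟨0, hm.2⟩)
    have hpt : γ t = (fun _ => m : Fin 1 → ℤ) +ᵥ w := by
      apply φ.symm.injective
      rw [hsymm]
      funext i
      rw [Subsingleton.elim i 0]
      show (φ.symm (γ t)) 0 = (rv (fun _ => m : Fin 1 → ℤ)) 0 + (φ.symm w) 0
      have ht' : (φ.symm (γ t)) 0 = (φ.symm w) 0 + (m : ℝ) := ht
      rw [ht', add_comm]
      rfl
    have hd : dist (π y) (π w) ≤ dist y ((fun _ => m : Fin 1 → ℤ) +ᵥ w) := hcov.le y w _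
    rw [← hpt] at hd
    have hb := hγ t
    rw [Metric.mem_closedBall, dist_comm] at hb
    have : A' * dist y (k +ᵥ y) ≤ A' * (24 * A' * (20 * δ)) :=
      mul_le_mul_of_nonneg_left hkd hA0.le
    linarith
  have hp := hbd p
  have hq := hbd q
  have htri := dist_triangle_left (π p) (π q) (π y)
  have hDq : dist (π p) (π q) = D := hset.dq
  linarith

theorem t (hCO : S_CO) (hSE : S_SE) (hGH : StmtGH) : S_N1 := by
  intro n A C N R0 l hn hR hl
  rcases Nat.le_one_iff_eq_zero_or_eq_one.1 hn with h | h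
  · subst h
    refine ⟨l / 12, by positivity, ?_⟩
    intro X T _ _ _ _ _ _ _ _ π φ hφ hcov hturn _
    by_contra hlt
    rw [not_le] at hlt
    obtain ⟨p, q, -, -, -, hpq⟩ := hGH T l (l / 12) hl hlt
    obtain ⟨x, rfl⟩ := hcov.surj p
    obtain ⟨y, rfl⟩ := hcov.surj q
    have : x = y := by
      apply φ.symm.injective
      exact Subsingleton.elim _ _
    rw [this, dist_self] at hpq
    linarith
  · subst h
    exact case_one hCO hSE A C N R0 l hl

end Pool.Agent.Helper44.TC.N1
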